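import Mathlib

/-!
# Discrepancy between two ways of sampling a matching pair: `ℓ₀ < 1`
-/

namespace Pool.Agent.Results.MP_c9cfcf_pr.MatchingPairGap

open scoped ENNReal

/-- Law of the colour of Method 1. -/
noncomputable def lawX {C : Type} (p : PMF C) (i : C) : ℝ≥0∞ :=
  (p i) ^ 2 / ∑' j, (p j) ^ 2

/-- Law of the colour of Method 2 (the explicit formula of the problem). -/
noncomputable def lawY {C : Type} (p : PMF C) (i : C) : ℝ≥0∞ :=
  (p i) ^ 2 * ∑' k : ℕ, (((k + 1).factorial : ℕ) : ℝ≥0∞) *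
    ∑' J : {J : Finset C // J.card = k ∧ i ∉ J}, ∏ j ∈ J.1, p j

/-- The discrepancy: total variation distance between the two laws. -/
noncomputable def D {C : Type} (p : PMF C) : ℝ :=
  (1 / 2) * ∑' i, |(lawX p i).toReal - (lawY p i).toReal|

section aux

variable {C : Type} [DecidableEq C]

/-- Elementary symmetric sums. -/
noncomputable def E (q : C → ℝ≥0∞) (k : ℕ) : ℝ≥0∞ :=
  ∑' J : Finset C, if J.card = k then ∏ j ∈ J, q j else 0

/-- Elementary symmetric sums over sets avoiding `i`. -/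
noncomputable def E' (q : C → ℝ≥0∞) (i : C) (k : ℕ) : ℝ≥0∞ :=
  ∑' J : Finset C, if J.card = k ∧ i ∉ J then ∏ j ∈ J, q j else 0

theorem E'_eq_update (q : C → ℝ≥0∞) (i : C) (k : ℕ) :
    E' q i k = E (Function.update q i 0) k := by
  unfold E' E
  refine tsum_congr fun J => ?_
  by_cases hJ : i ∈ J
  · simp only [hJ, not_true_eq_false, and_false, if_false]
    split_ifs with h
    · symm
      apply Finset.prod_eq_zero hJ
      simp
    · rfl
  · simp only [hJ, not_false_eq_true, and_true]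
    split_ifs with h
    · refine Finset.prod_congr rfl fun j hj => ?_
      have : j ≠ i := fun h => hJ (h ▸ hj)
      simp [Function.update_of_ne this]
    · rfl

theorem E'_le (q : C → ℝ≥0∞) (i : C) (k : ℕ) : E' q i k ≤ E q k := by
  unfold E' E
  refine ENNReal.tsum_le_tsum fun J => ?_
  by_cases h1 : J.card = k
  · by_cases h2 : i ∉ J
    · rw [if_pos ⟨h1, h2⟩, if_pos h1]
    · rw [if_neg (fun h => h2 h.2)]
      exact zero_le
  · rw [if_neg (fun h => h1 h.1)]
    exact zero_le

/-- Change of variable `K = insert i J`. -/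
theorem tsum_insert (i : C) (m : ℕ) (F : Finset C → ℝ≥0∞) :
    (∑' K : Finset C, if K.card = m + 1 ∧ i ∈ K then F K else 0) =
      ∑' J : Finset C, if J.card = m ∧ i ∉ J then F (insert i J) else 0 := by
  have h1 : (∑' K : Finset C, if K.card = m + 1 ∧ i ∈ K then F K else 0)
      = ∑' K : {K : Finset C | K.card = m + 1 ∧ i ∈ K}, F K := by
    rw [_root_.tsum_subtype {K : Finset C | K.card = m + 1 ∧ i ∈ K} F]
    refine tsum_congr fun K => ?_
    simp [Set.indicator_apply]
  have h2 : (∑' J : Finset C, if J.card = m ∧ i ∉ J then F (insert i J) else 0)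
      = ∑' J : {J : Finset C | J.card = m ∧ i ∉ J}, F (insert i J) := by
    rw [_root_.tsum_subtype {J : Finset C | J.card = m ∧ i ∉ J} (fun J => F (insert i J))]
    refine tsum_congr fun K => ?_
    simp [Set.indicator_apply]
  rw [h1, h2]
  let e : {J : Finset C | J.card = m ∧ i ∉ J} ≃ {K : Finset C | K.card = m + 1 ∧ i ∈ K} :=
    { toFun := fun J => ⟨insert i J.1, by
        refine ⟨?_, Finset.mem_insert_self _ _⟩
        rw [Finset.card_insert_of_notMem J.2.2, J.2.1]⟩
      invFun := fun K => ⟨K.1.erase i, by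
        refine ⟨?_, Finset.notMem_erase _ _⟩
        rw [Finset.card_erase_of_mem K.2.2, K.2.1]; rfl⟩
      left_inv := fun J => by
        apply Subtype.ext
        exact Finset.erase_insert J.2.2
      right_inv := fun K => by
        apply Subtype.ext
        exact Finset.insert_erase K.2.2 }
  exact (e.tsum_eq (fun K : {K : Finset C | K.card = m + 1 ∧ i ∈ K} => F K)).symm

/-- The basic identity `e₁ e_{k+1} = (k+2) e_{k+2} + ∑ qᵢ² e_k(q without i)`. -/
theorem basic (q : C → ℝ≥0∞) (k : ℕ) :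
    (∑' i, q i) * E q (k + 1) = ((k + 2 : ℕ) : ℝ≥0∞) * E q (k + 2) +
      ∑' i, (q i) ^ 2 * E' q i k := by
  have hA : ∀ i, q i * E q (k + 1) = (q i) ^ 2 * E' q i k +
      ∑' K : Finset C, if K.card = k + 2 ∧ i ∈ K then ∏ j ∈ K, q j else 0 := by
    intro i
    rw [tsum_insert i (k + 1) (fun K => ∏ j ∈ K, q j)]
    have h1 : (q i) ^ 2 * E' q i k =
        ∑' J : Finset C, if J.card = k + 1 ∧ i ∈ J then q i * ∏ j ∈ J, q j else 0 := by
      rw [tsum_insert i k (fun K => q i * ∏ j ∈ K, q j)]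
      unfold E'
      rw [← ENNReal.tsum_mul_left]
      refine tsum_congr fun J => ?_
      split_ifs with h
      · rw [Finset.prod_insert h.2]; ring
      · simp
    rw [h1, ← ENNReal.tsum_add]
    unfold E
    rw [← ENNReal.tsum_mul_left]
    refine tsum_congr fun J => ?_
    by_cases hc : J.card = k + 1
    · by_cases hi : i ∈ J
      · simp [hc, hi]
      · simp [hc, hi]
    · simp [hc]
  rw [← ENNReal.tsum_mul_right]
  simp_rw [hA]
  rw [ENNReal.tsum_add, add_comm]
  congr 1
  rw [ENNReal.tsum_comm]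
  unfold E
  rw [← ENNReal.tsum_mul_left]
  refine tsum_congr fun K => ?_
  by_cases hc : K.card = k + 2
  · simp only [hc, true_and, if_true]
    rw [tsum_eq_sum (s := K)]
    · rw [Finset.sum_congr rfl (fun i hi => if_pos hi)]
      rw [Finset.sum_const, hc, nsmul_eq_mul]
    · intro b hb
      simp [hb]
  · simp [hc]

omit [DecidableEq C] in
theorem E_zero (q : C → ℝ≥0∞) : E q 0 = 1 := by
  unfold E
  rw [tsum_eq_single ∅]
  · simp
  · intro J hJ
    have : J.card ≠ 0 := by simpa using hJ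
    simp [this]

theorem E_one (q : C → ℝ≥0∞) : E q 1 = ∑' i, q i := by
  have h : ∀ J : Finset C, (if J.card = 1 then ∏ j ∈ J, q j else 0)
      = ∑' i, if J = {i} then q i else 0 := by
    intro J
    by_cases hc : J.card = 1
    · obtain ⟨a, rfl⟩ := Finset.card_eq_one.mp hc
      rw [tsum_eq_single a]
      · simp
      · intro b hb
        rw [if_neg]
        intro h
        exact hb (Finset.singleton_injective h).symm
    · rw [if_neg hc]
      symm
      rw [ENNReal.tsum_eq_zero]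
      intro i
      rw [if_neg]
      rintro rfl
      exact hc (Finset.card_singleton i)
  unfold E
  simp_rw [h]
  rw [ENNReal.tsum_comm]
  refine tsum_congr fun i => ?_
  rw [tsum_eq_single {i}]
  · simp
  · intro J hJ
    simp [hJ]

/-- `g k = k! e_k`. -/
noncomputable def g (q : C → ℝ≥0∞) (k : ℕ) : ℝ≥0∞ := ((k.factorial : ℕ) : ℝ≥0∞) * E q k

omit [DecidableEq C] in
theorem g_zero (q : C → ℝ≥0∞) : g q 0 = 1 := by simp [g, E_zero]

theorem g_one (q : C → ℝ≥0∞) : g q 1 = ∑' i, q i := by simp [g, E_one]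

theorem g_basic (q : C → ℝ≥0∞) (k : ℕ) :
    (∑' i, q i) * g q (k + 1) = g q (k + 2) +
      (((k + 1).factorial : ℕ) : ℝ≥0∞) * ∑' i, (q i) ^ 2 * E' q i k := by
  unfold g
  have h := basic q k
  have hf : (((k + 2).factorial : ℕ) : ℝ≥0∞)
      = (((k + 1).factorial : ℕ) : ℝ≥0∞) * ((k + 2 : ℕ) : ℝ≥0∞) := by
    rw [Nat.factorial_succ (k + 1)]
    push_cast
    ring
  calc (∑' i, q i) * ((((k + 1).factorial : ℕ) : ℝ≥0∞) * E q (k + 1))
      = (((k + 1).factorial : ℕ) : ℝ≥0∞) * ((∑' i, q i) * E q (k + 1)) := by ring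
    _ = _ := by rw [h, hf, mul_add, mul_assoc]

theorem g_le_one (q : C → ℝ≥0∞) (hq : ∑' i, q i ≤ 1) (k : ℕ) : g q k ≤ 1 := by
  induction k with
  | zero => rw [g_zero]
  | succ k ih =>
    cases k with
    | zero => rw [g_one]; exact hq
    | succ k =>
      have h := g_basic q k
      have h2 : g q (k + 2) ≤ (∑' i, q i) * g q (k + 1) := by
        rw [h]; exact le_self_add
      calc g q (k + 2) ≤ (∑' i, q i) * g q (k + 1) := h2
        _ ≤ 1 * 1 := by gcongr
        _ = 1 := one_mul 1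

/-- Lower bound for the probability that `k` draws are distinct (and different from `i`). -/
theorem g_lower (q : C → ℝ≥0∞) (a f : ℝ≥0∞) (hq : (∑' i, q i) + a = 1)
    (hf : ∑' i, (q i) ^ 2 ≤ f) (k : ℕ) :
    1 ≤ g q k + k * a + ((k.choose 2 : ℕ) : ℝ≥0∞) * f := by
  have hq1 : ∑' i, q i ≤ 1 := by rw [← hq]; exact le_self_add
  induction k with
  | zero => simp [g_zero]
  | succ k ih =>
    cases k with
    | zero =>
      rw [g_one]
      have : ((1 : ℕ).choose 2 : ℕ) = 0 := rfl
      simp [hq]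
    | succ k =>
      have h := g_basic q k
      have hk : g q (k + 1) ≤ 1 := g_le_one q hq1 (k + 1)
      have hs : (((k + 1).factorial : ℕ) : ℝ≥0∞) * ∑' i, (q i) ^ 2 * E' q i k
          ≤ ((k + 1 : ℕ) : ℝ≥0∞) * f := by
        have h3 : ∀ i, (q i) ^ 2 * E' q i k ≤ (q i) ^ 2 * E q k := fun i => by
          gcongr
          exact E'_le q i k
        calc (((k + 1).factorial : ℕ) : ℝ≥0∞) * ∑' i, (q i) ^ 2 * E' q i k
            ≤ (((k + 1).factorial : ℕ) : ℝ≥0∞) * ∑' i, (q i) ^ 2 * E q k := by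
              gcongr with i
              exact E'_le q i k
          _ = (((k + 1).factorial : ℕ) : ℝ≥0∞) * ((∑' i, (q i) ^ 2) * E q k) := by
              rw [ENNReal.tsum_mul_right]
          _ = ((k + 1 : ℕ) : ℝ≥0∞) * ((∑' i, (q i) ^ 2) * g q k) := by
              unfold g
              rw [Nat.factorial_succ]
              push_cast
              ring
          _ ≤ ((k + 1 : ℕ) : ℝ≥0∞) * (f * 1) := by
              gcongr
              exact g_le_one q hq1 k
          _ = _ := by rw [mul_one]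
      have h4 : g q (k + 1) ≤ g q (k + 2) + ((k + 1 : ℕ) : ℝ≥0∞) * f + a := by
        calc g q (k + 1) = ((∑' i, q i) + a) * g q (k + 1) := by rw [hq, one_mul]
          _ = (∑' i, q i) * g q (k + 1) + a * g q (k + 1) := add_mul _ _ _
          _ ≤ (g q (k + 2) + ((k + 1 : ℕ) : ℝ≥0∞) * f) + a * 1 := by
              rw [h]
              gcongr
          _ = _ := by rw [mul_one]
      have hch : (((k + 1 + 1).choose 2 : ℕ) : ℝ≥0∞)
          = ((k + 1 : ℕ) : ℝ≥0∞) + (((k + 1).choose 2 : ℕ) : ℝ≥0∞) := by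
        rw [Nat.choose_succ_succ' (k + 1) 1]
        push_cast
        simp
      calc (1 : ℝ≥0∞) ≤ g q (k + 1) + ((k + 1 : ℕ) : ℝ≥0∞) * a
            + (((k + 1).choose 2 : ℕ) : ℝ≥0∞) * f := ih
        _ ≤ (g q (k + 2) + ((k + 1 : ℕ) : ℝ≥0∞) * f + a) + ((k + 1 : ℕ) : ℝ≥0∞) * a
            + (((k + 1).choose 2 : ℕ) : ℝ≥0∞) * f := by gcongr
        _ = _ := by
            rw [hch]
            push_cast
            ring

/-- Bound on the total mass of `lawY`. -/
theorem tsum_B_le (p : C → ℝ≥0∞) (hp : ∑' i, p i = 1) :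
    ∑' k : ℕ, (((k + 1).factorial : ℕ) : ℝ≥0∞) * ∑' i, (p i) ^ 2 * E' p i k ≤ 1 := by
  refine ENNReal.tsum_le_of_sum_range_le fun n => ?_
  have h : (∑ k ∈ Finset.range n, (((k + 1).factorial : ℕ) : ℝ≥0∞) *
      ∑' i, (p i) ^ 2 * E' p i k) + g p (n + 1) = 1 := by
    induction n with
    | zero => simp [g_one, hp]
    | succ n ih =>
      have hb := g_basic p n
      rw [hp, one_mul] at hb
      rw [Finset.sum_range_succ, add_assoc, add_comm _ (g p (n + 1 + 1)), ← hb, ih]
  calc _ ≤ (∑ k ∈ Finset.range n, (((k + 1).factorial : ℕ) : ℝ≥0∞) *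
      ∑' i, (p i) ^ 2 * E' p i k) + g p (n + 1) := le_self_add
    _ = 1 := h

theorem update_sum (p : C → ℝ≥0∞) (hp : ∑' i, p i = 1) (i : C) :
    (∑' j, Function.update p i 0 j) + p i = 1 := by
  have h1 : ∑' j, Function.update p i 0 j = ∑' j, if j = i then 0 else p j := by
    refine tsum_congr fun j => ?_
    by_cases h : j = i
    · subst h; simp
    · simp [h]
  have h2 : ∑' j, p j = p i + ∑' j, if j = i then 0 else p j := by
    rw [ENNReal.tsum_eq_add_tsum_ite i]
    congr 1
    refine tsum_congr fun j => ?_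
    by_cases h : j = i
    · simp [h]
    · simp [h]
  rw [h1, add_comm, ← h2, hp]

theorem A_lower (p : C → ℝ≥0∞) (hp : ∑' i, p i = 1) (i : C) :
    ENNReal.ofReal ((3 / 64) / (∑' j, (p j) ^ 2).toReal) ≤
      ∑' k : ℕ, (((k + 1).factorial : ℕ) : ℝ≥0∞) * E' p i k := by
  have hple : ∀ j, p j ≤ 1 := fun j => by rw [← hp]; exact ENNReal.le_tsum j
  have hf_le : ∑' j, (p j) ^ 2 ≤ 1 := by
    calc ∑' j, (p j) ^ 2 ≤ ∑' j, p j := by
          refine ENNReal.tsum_le_tsum fun j => ?_
          calc (p j) ^ 2 = p j * p j := sq _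
            _ ≤ p j * 1 := by gcongr; exact hple j
            _ = p j := mul_one _
      _ = 1 := hp
  set f := ∑' j, (p j) ^ 2 with hf
  set F := f.toReal with hF
  have hf_top : f ≠ ⊤ := ne_top_of_le_ne_top ENNReal.one_ne_top hf_le
  have hf_ne : f ≠ 0 := by
    intro h0
    rw [hf, ENNReal.tsum_eq_zero] at h0
    have : ∀ j, p j = 0 := fun j => by simpa using h0 j
    simp [this] at hp
  have hFpos : 0 < F := ENNReal.toReal_pos hf_ne hf_top
  set q := Function.update p i 0 with hq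
  set P := (p i).toReal with hP
  have hPi_top : p i ≠ ⊤ := ne_top_of_le_ne_top ENNReal.one_ne_top (hple i)
  have hPF : P ^ 2 ≤ F := by
    rw [hP, hF, ← ENNReal.toReal_pow]
    exact ENNReal.toReal_mono hf_top (by rw [hf]; exact ENNReal.le_tsum i)
  have hP0 : 0 ≤ P := ENNReal.toReal_nonneg
  have hqs : (∑' j, q j) + p i = 1 := update_sum p hp i
  have hq1 : ∑' j, q j ≤ 1 := by rw [← hqs]; exact le_self_add
  have hq2 : ∑' j, (q j) ^ 2 ≤ f := by
    refine ENNReal.tsum_le_tsum fun j => ?_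
    by_cases h : j = i
    · subst h; simp [hq]
    · simp [hq, h]
  have hlow := g_lower q (p i) f hqs hq2
  -- real version
  have hreal : ∀ k : ℕ, 1 ≤ (g q k).toReal + k * P + (k.choose 2 : ℕ) * F := by
    intro k
    have h := hlow k
    have hg : g q k ≠ ⊤ := ne_top_of_le_ne_top ENNReal.one_ne_top (g_le_one q hq1 k)
    have h1 : (k : ℝ≥0∞) * p i ≠ ⊤ := ENNReal.mul_ne_top (by simp) hPi_top
    have h2 : ((k.choose 2 : ℕ) : ℝ≥0∞) * f ≠ ⊤ := ENNReal.mul_ne_top (by simp) hf_top
    have h3 := ENNReal.toReal_mono (by simp [hg, h1, h2]) h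
    rw [ENNReal.toReal_add (by simp [hg, h1]) h2, ENNReal.toReal_add hg h1,
      ENNReal.toReal_mul, ENNReal.toReal_mul] at h3
    simpa using h3
  set s := 1 / Real.sqrt F with hs
  have hsq : 0 < Real.sqrt F := Real.sqrt_pos.mpr hFpos
  have hs_pos : 0 < s := by positivity
  have hsF : s * Real.sqrt F = 1 := by rw [hs]; field_simp
  have hs2F : s ^ 2 * F = 1 := by
    have : F = Real.sqrt F ^ 2 := (Real.sq_sqrt hFpos.le).symm
    calc s ^ 2 * F = (s * Real.sqrt F) ^ 2 := by rw [mul_pow, ← this]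
      _ = 1 := by rw [hsF]; norm_num
  have hPs : P ≤ Real.sqrt F := Real.le_sqrt_of_sq_le hPF
  set m := ⌊s / 2⌋₊ with hm
  have hm1 : (m : ℝ) ≤ s / 2 := Nat.floor_le (by positivity)
  have hm2 : s / 2 < m + 1 := Nat.lt_floor_add_one _
  have hg38 : ∀ k ≤ m, 3 / 8 ≤ (g q k).toReal := by
    intro k hk
    have hk' : (k : ℝ) ≤ s / 2 := le_trans (by exact_mod_cast hk) hm1
    have hk0 : (0 : ℝ) ≤ k := Nat.cast_nonneg k
    have h1 : (k : ℝ) * P ≤ 1 / 2 := by
      calc (k : ℝ) * P ≤ (s / 2) * Real.sqrt F := by gcongr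
        _ = 1 / 2 := by rw [div_mul_eq_mul_div, hsF]
    have h2 : ((k.choose 2 : ℕ) : ℝ) * F ≤ 1 / 8 := by
      have hc : ((k.choose 2 : ℕ) : ℝ) ≤ (k : ℝ) ^ 2 / 2 := by
        rw [Nat.cast_choose_two]
        nlinarith
      calc ((k.choose 2 : ℕ) : ℝ) * F ≤ ((k : ℝ) ^ 2 / 2) * F := by gcongr
        _ ≤ ((s / 2) ^ 2 / 2) * F := by gcongr
        _ = (s ^ 2 * F) / 8 := by ring
        _ = 1 / 8 := by rw [hs2F]
    have h3 := hreal k
    linarith
  have hsum : ∀ k : ℕ, (((k + 1).factorial : ℕ) : ℝ≥0∞) * E' p i k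
      = ((k + 1 : ℕ) : ℝ≥0∞) * g q k := by
    intro k
    rw [E'_eq_update, g, Nat.factorial_succ]
    push_cast
    ring
  simp_rw [hsum]
  calc ENNReal.ofReal ((3 / 64) / F)
      ≤ ENNReal.ofReal (∑ k ∈ Finset.range (m + 1), ((k + 1 : ℕ) : ℝ) * (3 / 8)) := by
        apply ENNReal.ofReal_le_ofReal
        have hs : ∀ n : ℕ, ∑ k ∈ Finset.range n, ((k + 1 : ℕ) : ℝ) * (3 / 8)
            = (3 / 16) * n * (n + 1) := by
          intro n
          induction n with
          | zero => simp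
          | succ n ih => rw [Finset.sum_range_succ, ih]; push_cast; ring
        rw [hs (m + 1)]
        have h1 : (3 / 64) / F = (3 / 64) * s ^ 2 := by
          rw [div_eq_iff hFpos.ne', mul_assoc, hs2F, mul_one]
        rw [h1]
        push_cast
        nlinarith
    _ = ∑ k ∈ Finset.range (m + 1), ENNReal.ofReal (((k + 1 : ℕ) : ℝ) * (3 / 8)) := by
        rw [ENNReal.ofReal_sum_of_nonneg]
        intro k _
        positivity
    _ ≤ ∑ k ∈ Finset.range (m + 1), ((k + 1 : ℕ) : ℝ≥0∞) * g q k := by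
        refine Finset.sum_le_sum fun k hk => ?_
        rw [ENNReal.ofReal_mul (by positivity), ENNReal.ofReal_natCast]
        gcongr
        have hk' : k ≤ m := by
          have := Finset.mem_range.mp hk
          omega
        exact ENNReal.ofReal_le_of_le_toReal (hg38 k hk')
    _ ≤ ∑' k : ℕ, ((k + 1 : ℕ) : ℝ≥0∞) * g q k := ENNReal.sum_le_tsum _

theorem lawY_eq (p : PMF C) (i : C) :
    lawY p i = (p i) ^ 2 * ∑' k : ℕ, (((k + 1).factorial : ℕ) : ℝ≥0∞) * E' (fun j => p j) i k := by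
  unfold lawY E'
  congr 1
  refine tsum_congr fun k => ?_
  congr 1
  rw [show (∑' J : {J : Finset C // J.card = k ∧ i ∉ J}, ∏ j ∈ J.1, p j)
    = ∑' J : {J : Finset C | J.card = k ∧ i ∉ J}, ∏ j ∈ J.1, p j from rfl,
    tsum_subtype {J : Finset C | J.card = k ∧ i ∉ J} (fun J => ∏ j ∈ J, p j)]
  refine tsum_congr fun K => ?_
  simp [Set.indicator_apply]

omit [DecidableEq C] in
theorem tsum_sq_ne (p : PMF C) : (∑' j, (p j) ^ 2) ≠ 0 ∧ (∑' j, (p j) ^ 2) ≠ ⊤ := by
  constructor
  · intro h0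
    rw [ENNReal.tsum_eq_zero] at h0
    have h1 : ∀ j, p j = 0 := fun j => by simpa using h0 j
    have := p.tsum_coe
    simp [h1] at this
  · refine ne_top_of_le_ne_top ENNReal.one_ne_top ?_
    calc ∑' j, (p j) ^ 2 ≤ ∑' j, p j := by
          refine ENNReal.tsum_le_tsum fun j => ?_
          calc (p j) ^ 2 = p j * p j := sq _
            _ ≤ p j * 1 := by gcongr; exact p.coe_le_one j
            _ = p j := mul_one _
      _ = 1 := p.tsum_coe

omit [DecidableEq C] in
theorem tsum_lawX (p : PMF C) : ∑' i, lawX p i = 1 := by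
  unfold lawX
  simp_rw [div_eq_mul_inv]
  rw [ENNReal.tsum_mul_right]
  exact ENNReal.mul_inv_cancel (tsum_sq_ne p).1 (tsum_sq_ne p).2

theorem tsum_lawY (p : PMF C) : ∑' i, lawY p i ≤ 1 := by
  calc ∑' i, lawY p i = ∑' i, ∑' k : ℕ, (((k + 1).factorial : ℕ) : ℝ≥0∞) *
        ((p i) ^ 2 * E' (fun j => p j) i k) := by
        refine tsum_congr fun i => ?_
        rw [lawY_eq, ← ENNReal.tsum_mul_left]
        refine tsum_congr fun k => ?_
        ring
    _ = ∑' k : ℕ, (((k + 1).factorial : ℕ) : ℝ≥0∞) * ∑' i, (p i) ^ 2 * E' (fun j => p j) i k := by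
        rw [ENNReal.tsum_comm]
        refine tsum_congr fun k => ?_
        rw [ENNReal.tsum_mul_left]
    _ ≤ 1 := tsum_B_le (fun j => p j) p.tsum_coe

theorem lawY_ge (p : PMF C) (i : C) : ENNReal.ofReal (3 / 64) * lawX p i ≤ lawY p i := by
  rw [lawY_eq, lawX]
  have h := A_lower (fun j => p j) p.tsum_coe i
  obtain ⟨h0, htop⟩ := tsum_sq_ne p
  have hpos : 0 < (∑' j, (p j) ^ 2).toReal := ENNReal.toReal_pos h0 htop
  rw [ENNReal.ofReal_div_of_pos hpos, ENNReal.ofReal_toReal htop] at h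
  calc ENNReal.ofReal (3 / 64) * ((p i) ^ 2 / ∑' j, (p j) ^ 2)
      = (p i) ^ 2 * (ENNReal.ofReal (3 / 64) / ∑' j, (p j) ^ 2) := by
        simp only [div_eq_mul_inv]; ring
    _ ≤ _ := by gcongr

end aux

/-- **`ℓ₀ < 1`.**  For every probability distribution on every set of colours the discrepancy is
at most `61/64` (and the series defining it converges). -/
theorem result : ∀ (C : Type) (p : PMF C),
    Summable (fun i => |(lawX p i).toReal - (lawY p i).toReal|) ∧ D p ≤ 61 / 64 := by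
  classical
  intro C p
  have hX1 := tsum_lawX p
  have hY1 := tsum_lawY p
  have hXne : ∑' i, lawX p i ≠ ⊤ := by rw [hX1]; exact ENNReal.one_ne_top
  have hYne : ∑' i, lawY p i ≠ ⊤ := ne_top_of_le_ne_top ENNReal.one_ne_top hY1
  have hXs : Summable (fun i => (lawX p i).toReal) := ENNReal.summable_toReal hXne
  have hYs : Summable (fun i => (lawY p i).toReal) := ENNReal.summable_toReal hYne
  have hXt : ∑' i, (lawX p i).toReal = 1 := by
    rw [← ENNReal.tsum_toReal_eq (fun i => ENNReal.ne_top_of_tsum_ne_top hXne i), hX1]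
    simp
  have hYt : ∑' i, (lawY p i).toReal ≤ 1 := by
    rw [← ENNReal.tsum_toReal_eq (fun i => ENNReal.ne_top_of_tsum_ne_top hYne i)]
    exact ENNReal.toReal_le_of_le_ofReal zero_le_one (by simpa using hY1)
  have hge : ∀ i, (3 / 64) * (lawX p i).toReal ≤ (lawY p i).toReal := by
    intro i
    have h := ENNReal.toReal_mono (ENNReal.ne_top_of_tsum_ne_top hYne i) (lawY_ge p i)
    rwa [ENNReal.toReal_mul, ENNReal.toReal_ofReal (by norm_num)] at h
  have hb : ∀ i, |(lawX p i).toReal - (lawY p i).toReal| ≤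
      (1 - 2 * (3 / 64)) * (lawX p i).toReal + (lawY p i).toReal := by
    intro i
    have h1 := hge i
    have h2 : 0 ≤ (lawX p i).toReal := ENNReal.toReal_nonneg
    rw [abs_le]
    constructor <;> linarith
  have hs : Summable (fun i => |(lawX p i).toReal - (lawY p i).toReal|) := (hXs.sub hYs).abs
  refine ⟨hs, ?_⟩
  have hsum : Summable (fun i => (1 - 2 * (3 / 64)) * (lawX p i).toReal + (lawY p i).toReal) :=
    (hXs.mul_left _).add hYs
  have h := hs.tsum_le_tsum hb hsum
  rw [(hXs.mul_left _).tsum_add hYs, tsum_mul_left, hXt] at h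
  unfold D
  linarith

end Pool.Agent.Results.MP_c9cfcf_pr.MatchingPairGap
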